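import Pool.Agent.W96.CL.Stm
set_option autoImplicit false

/-! Commutation of the generators with the double row transfer matrices. -/

namespace W96CL

theorem comm_XX {A : Type} [Ring A] [Algebra ℂ A] {e : ℕ → A} {N : ℕ} (h : TL e N) {i k : ℕ}
    (hik : i + 1 < k) (hk : k + 1 < N) (y : ℂ) : Commute (e i) (XX e k y) := by
  unfold XX
  apply Commute.add_right
  · exact (Commute.one_right (e i)).smul_right _
  · have h1 : Commute (e i) (e k) := h.cm i k hik hk
    exact h1.smul_right _

theorem cl_comm : S_comm := by
  intro A _ _ e N h x i j L
  induction L generalizing j with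
  | nil =>
    intro _
    exact ⟨fun _ => Commute.one_right _, fun _ => Commute.one_right _⟩
  | cons z L ih =>
    intro hj
    refine ⟨fun hN => ?_, fun hN => ?_⟩
    · rw [List.length_cons] at hN
      have h1 := (ih (j + 1) (by omega)).1 (by omega)
      show Commute (e i) (XX e j (x / z) * BB e x (j + 1) L * XX e j (x * z))
      exact ((comm_XX h hj (by omega) _).mul_right h1).mul_right (comm_XX h hj (by omega) _)
    · rw [List.length_cons] at hN
      have h1 := (ih j hj).1 (by omega)
      have h2 := (ih (j + 1) (by omega)).2 (by omega)
      show Commute (e i) ((ph1 x z - tau x z) • BB e x j L + tau x z • DD e x (j + 1) L)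
      exact (h1.smul_right _).add_right (h2.smul_right _)

end W96CL
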